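import Pool.Agent.H19.TM.Stm4

set_option autoImplicit false

/-! Project TM3, J6: the limit function of `Gd`. -/

namespace Pool.Agent.H94.TM

open Finset Filter Topology Pool.Agent.Y862.GM Pool.Agent.H19.TM

theorem pr_prime (z : ℕ) : ∀ q ∈ pr z, q.Prime := fun _ hq => (mem_filter.1 hq).2

theorem Gd_mono (P : Finset ℕ) {M N : ℕ} (h : M ≤ N) : Gd P M ≤ Gd P N := by
  unfold Gd
  apply mul_le_mul_of_nonneg_left _ (sq_nonneg _)
  apply sum_le_sum_of_subset_of_nonneg
  · apply filter_subset_filter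
    exact Icc_subset_Icc_right h
  · intro i _ _
    positivity

/-- the integer part of `z ^ u` -/
noncomputable def Nz (u : ℝ) (z : ℕ) : ℕ := ⌊(z : ℝ) ^ u⌋₊

theorem Nz_one {u : ℝ} (hu : 0 < u) {z : ℕ} (hz : 1 ≤ z) : 1 ≤ Nz u z := by
  have hz' : (1 : ℝ) ≤ z := by exact_mod_cast hz
  have h1 : (1 : ℝ) ≤ (z : ℝ) ^ u := Real.one_le_rpow hz' hu.le
  exact Nat.le_floor (by simpa using h1)

theorem Nz_up {u : ℝ} (hu : 0 < u) {z : ℕ} (hz : 1 ≤ z) :
    Real.log (Nz u z) ≤ u * Real.log z := by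
  have hz' : (1 : ℝ) ≤ z := by exact_mod_cast hz
  have h1 : (1 : ℝ) ≤ (z : ℝ) ^ u := Real.one_le_rpow hz' hu.le
  have h2 : ((Nz u z : ℕ) : ℝ) ≤ (z : ℝ) ^ u := Nat.floor_le (by linarith)
  have h4 : (0 : ℝ) < ((Nz u z : ℕ) : ℝ) := by exact_mod_cast Nz_one hu hz
  calc Real.log (Nz u z) ≤ Real.log ((z : ℝ) ^ u) := Real.log_le_log h4 h2
    _ = u * Real.log z := Real.log_rpow (by linarith) u

theorem Nz_low {u : ℝ} (hu : 0 < u) {z : ℕ} (hz : 1 ≤ z) :
    u * Real.log z - Real.log 2 ≤ Real.log (Nz u z) := by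
  have hz' : (1 : ℝ) ≤ z := by exact_mod_cast hz
  have h1 : (1 : ℝ) ≤ (z : ℝ) ^ u := Real.one_le_rpow hz' hu.le
  have h2 : (z : ℝ) ^ u < ((Nz u z : ℕ) : ℝ) + 1 := Nat.lt_floor_add_one _
  have h4 : (1 : ℝ) ≤ ((Nz u z : ℕ) : ℝ) := by exact_mod_cast Nz_one hu hz
  have h5 : (z : ℝ) ^ u / 2 ≤ ((Nz u z : ℕ) : ℝ) := by linarith
  calc u * Real.log z - Real.log 2 = Real.log ((z : ℝ) ^ u / 2) := by
        rw [Real.log_div (by positivity) (by norm_num), Real.log_rpow (by linarith)]
    _ ≤ Real.log (Nz u z) := Real.log_le_log (by positivity) h5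

theorem Nz_tendsto {u : ℝ} (hu : 0 < u) : Tendsto (fun z : ℕ => Nz u z) atTop atTop := by
  have h1 : Tendsto (fun z : ℕ => (z : ℝ) ^ u) atTop atTop :=
    (tendsto_rpow_atTop hu).comp tendsto_natCast_atTop_atTop
  exact tendsto_nat_floor_atTop.comp h1

theorem log_tendsto : Tendsto (fun z : ℕ => Real.log (z : ℝ)) atTop atTop :=
  Real.tendsto_log_atTop.comp tendsto_natCast_atTop_atTop

theorem Nz_ratio {u : ℝ} (hu : 0 < u) :
    Tendsto (fun z : ℕ => Real.log (Nz u z) / Real.log z) atTop (𝓝 u) := by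
  have h1 : Tendsto (fun z : ℕ => u - Real.log 2 / Real.log z) atTop (𝓝 (u - 0)) :=
    tendsto_const_nhds.sub (tendsto_const_nhds.div_atTop log_tendsto)
  rw [sub_zero] at h1
  refine tendsto_of_tendsto_of_tendsto_of_le_of_le' h1 tendsto_const_nhds ?_ ?_
  · filter_upwards [eventually_ge_atTop 2] with z hz
    have hz' : (1 : ℝ) < z := by exact_mod_cast hz
    have hl : 0 < Real.log z := Real.log_pos hz'
    rw [le_div_iff₀ hl, sub_mul, div_mul_cancel₀ _ hl.ne']
    exact Nz_low hu (by omega)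
  · filter_upwards [eventually_ge_atTop 2] with z hz
    have hz' : (1 : ℝ) < z := by exact_mod_cast hz
    have hl : 0 < Real.log z := Real.log_pos hz'
    rw [div_le_iff₀ hl]
    exact Nz_up hu (by omega)

theorem Lz_ratio (J3 : S_J3) : Tendsto (fun z : ℕ => Lz z / Real.log z) atTop (𝓝 1) := by
  rw [Metric.tendsto_atTop]
  intro ε hε
  obtain ⟨Z0, hZ0⟩ := J3.1 (ε / 2) (by positivity)
  refine ⟨Z0, fun z hz => ?_⟩
  rw [Real.dist_eq]
  linarith [hZ0 z hz]

theorem Lz_ratio' (J3 : S_J3) : Tendsto (fun z : ℕ => Real.log z / Lz z) atTop (𝓝 1) := by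
  have h := (Lz_ratio J3).inv₀ one_ne_zero
  simpa only [inv_div, inv_one] using h

theorem Nz_Lz (J3 : S_J3) {u : ℝ} (hu : 0 < u) :
    Tendsto (fun z : ℕ => Real.log (Nz u z) / Lz z) atTop (𝓝 u) := by
  have h := (Nz_ratio hu).mul (Lz_ratio' J3)
  rw [mul_one] at h
  refine h.congr' ?_
  filter_upwards [eventually_ge_atTop 2] with z hz
  have hz' : (1 : ℝ) < z := by exact_mod_cast hz
  have hl : 0 < Real.log z := Real.log_pos hz'
  have hL := J3.2.1 z
  field_simp

/-- the convergence for fixed `u` -/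
theorem conv (J3 : S_J3) (J5 : S_J5) {j : ℝ → ℝ} (hj : JProp j) {u : ℝ} (hu : 0 < u) :
    Tendsto (fun z : ℕ => Gd (pr z) (Nz u z)) atTop (𝓝 (j u)) := by
  have h1 : Tendsto (fun z : ℕ => j (Real.log (Nz u z) / Lz z)) atTop (𝓝 (j u)) :=
    (hj.1.tendsto u).comp (Nz_Lz J3 hu)
  have h2 : Tendsto (fun z : ℕ => Gd (pr z) (Nz u z) - j (Real.log (Nz u z) / Lz z)) atTop
      (𝓝 0) := by
    rw [Metric.tendsto_atTop]
    intro ε hε
    obtain ⟨A, hA⟩ := J5 j hj (max 1 u) (le_max_left _ _) (ε / 2) (by positivity)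
    obtain ⟨z0, hz0⟩ := eventually_atTop.1 ((Nz_tendsto hu).eventually_ge_atTop A)
    refine ⟨max z0 1, fun z hz => ?_⟩
    have hz1 : 1 ≤ z := (le_max_right _ _).trans hz
    have hz2 : z0 ≤ z := (le_max_left _ _).trans hz
    have hz' : (1 : ℝ) ≤ z := by exact_mod_cast hz1
    rw [Real.dist_eq, sub_zero]
    have h3 := hA (Nz u z) z (hz0 z hz2) ((Nz_up hu hz1).trans
      (mul_le_mul_of_nonneg_right (le_max_right _ _) (Real.log_nonneg hz')))
    linarith
  have h3 := h2.add h1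
  simpa only [sub_add_cancel, zero_add] using h3

theorem j_rng (J3 : S_J3) (J5 : S_J5) (G2 : S_G2) {j : ℝ → ℝ} (hj : JProp j) (u : ℝ) :
    0 ≤ j u ∧ j u ≤ 1 := by
  rcases le_or_gt u 0 with hu | hu
  · rw [hj.2.1 u hu]
    norm_num
  · have h := conv J3 J5 hj hu
    exact ⟨ge_of_tendsto' h (fun z => (G2.1 _ (pr_prime z) _).1),
      le_of_tendsto' h (fun z => (G2.1 _ (pr_prime z) _).2)⟩

theorem j_mono (J3 : S_J3) (J5 : S_J5) (G2 : S_G2) {j : ℝ → ℝ} (hj : JProp j) : Monotone j := by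
  intro u v huv
  rcases le_or_gt u 0 with hu | hu
  · rw [hj.2.1 u hu]
    exact (j_rng J3 J5 G2 hj v).1
  · refine le_of_tendsto_of_tendsto (conv J3 J5 hj hu) (conv J3 J5 hj (hu.trans_le huv)) ?_
    filter_upwards [eventually_ge_atTop 1] with z hz
    apply Gd_mono
    unfold Nz
    apply Nat.floor_le_floor
    exact Real.rpow_le_rpow_of_exponent_le (by exact_mod_cast hz) huv

theorem j_tail (J3 : S_J3) (J5 : S_J5) {C : ℝ} (hC : 0 ≤ C)
    (G5 : ∀ z N : ℕ, 2 ≤ z → 1 ≤ N → 1 - Gd (pr z) N ≤ C * Real.log z / (1 + Real.log N))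
    {j : ℝ → ℝ} (hj : JProp j) {u : ℝ} (hu : 0 < u) : 1 - j u ≤ C / u := by
  have h1 : Tendsto (fun z : ℕ => 1 - Gd (pr z) (Nz u z)) atTop (𝓝 (1 - j u)) :=
    tendsto_const_nhds.sub (conv J3 J5 hj hu)
  have h2 : Tendsto (fun z : ℕ => C / (1 / Real.log z + Real.log (Nz u z) / Real.log z)) atTop
      (𝓝 (C / (0 + u))) := by
    apply tendsto_const_nhds.div
    · exact (tendsto_const_nhds.div_atTop log_tendsto).add (Nz_ratio hu)
    · rw [zero_add]; exact hu.ne'
  rw [zero_add] at h2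
  refine le_of_tendsto_of_tendsto h1 h2 ?_
  filter_upwards [eventually_ge_atTop 2] with z hz
  have hz' : (1 : ℝ) < z := by exact_mod_cast hz
  have hl : 0 < Real.log z := Real.log_pos hz'
  refine (G5 z (Nz u z) hz (Nz_one hu (by omega))).trans (le_of_eq ?_)
  rw [← add_div, div_div_eq_mul_div]

/-- **J6** -/
theorem t_J6 (J2 : S_J2) (J3 : S_J3) (J5 : S_J5) (G5 : S_G5) (G2 : S_G2) : S_J6 := by
  intro j hj
  obtain ⟨C, hC, G5⟩ := G5
  have hr := j_rng J3 J5 G2 hj
  refine ⟨hr, j_mono J3 J5 G2 hj, ?_, ?_⟩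
  · have h1 : Tendsto (fun u : ℝ => 1 - C / u) atTop (𝓝 (1 - 0)) :=
      tendsto_const_nhds.sub (tendsto_const_nhds.div_atTop tendsto_id)
    rw [sub_zero] at h1
    refine tendsto_of_tendsto_of_tendsto_of_le_of_le' h1 tendsto_const_nhds ?_
      (Eventually.of_forall fun u => (hr u).2)
    filter_upwards [eventually_gt_atTop 0] with u hu
    linarith [j_tail J3 J5 hC G5 hj hu]
  · intro ε hε
    set K : ℝ := max 1 (C / ε) with hK
    have hK1 : 1 ≤ K := le_max_left _ _
    have hK0 : 0 < K := by linarith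
    have hCK : C / K ≤ ε := by
      rw [div_le_iff₀ hK0]
      have h1 : C / ε ≤ K := le_max_right _ _
      rw [div_le_iff₀ hε] at h1
      linarith
    obtain ⟨A, hA⟩ := J5 j hj K hK1 (ε / 2) (by positivity)
    obtain ⟨C', hC', _, hLip, _⟩ := J2 j hj (2 * K)
    -- the ratio
    set δ : ℝ := min (1 / 2) (ε / (2 * (C' + 1) * (2 * K))) with hδ
    have hδ0 : 0 < δ := lt_min (by norm_num) (by positivity)
    have hδ1 : δ ≤ 1 / 2 := min_le_left _ _
    have hδ2 : δ ≤ ε / (2 * (C' + 1) * (2 * K)) := min_le_right _ _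
    obtain ⟨Z0, hZ0⟩ := J3.1 δ hδ0
    -- `A'` is so large that `log N ≤ K log z` implies `z ≥ Z0`
    obtain ⟨A', hA'⟩ := eventually_atTop.1
      ((log_tendsto.eventually_gt_atTop (K * Real.log (Z0 + 1 : ℕ))).and (eventually_ge_atTop 1))
    refine ⟨max A A', fun N z hN hz => ?_⟩
    have hNA : A ≤ N := (le_max_left _ _).trans hN
    have hNA' : A' ≤ N := (le_max_right _ _).trans hN
    obtain ⟨hlogN, hN1⟩ := hA' N hNA'
    have hz' : (1 : ℝ) < z := by exact_mod_cast hz
    have hl : 0 < Real.log z := Real.log_pos hz'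
    have hN1' : (1 : ℝ) ≤ N := by exact_mod_cast hN1
    have hlN : 0 ≤ Real.log N := Real.log_nonneg hN1'
    rcases le_or_gt (Real.log N) (K * Real.log z) with hcase | hcase
    · -- bounded ratio
      have h1 := hA N z hNA hcase
      have hzZ : Z0 ≤ z := by
        by_contra hlt
        push Not at hlt
        have h2 : Real.log z ≤ Real.log (Z0 + 1 : ℕ) := by
          apply Real.log_le_log (by linarith)
          exact_mod_cast (by omega : z ≤ Z0 + 1)
        have h3 : K * Real.log z ≤ K * Real.log (Z0 + 1 : ℕ) := mul_le_mul_of_nonneg_left h2 hK0.le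
        linarith
      have h4 := hZ0 z hzZ
      have hL := J3.2.1 z
      set L : ℝ := Lz z with hLdef
      set l : ℝ := Real.log z with hldef
      set n : ℝ := Real.log N with hndef
      have h4' := abs_le.1 h4
      have hLl : l / 2 ≤ L := by
        have : 1 / 2 ≤ L / l := by linarith [h4'.1]
        rw [le_div_iff₀ hl] at this
        linarith
      have hu1 : n / l ≤ 2 * K := by
        rw [div_le_iff₀ hl]
        nlinarith
      have hu2 : n / L ≤ 2 * K := by
        rw [div_le_iff₀ hL]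
        nlinarith
      have h5 := hLip (n / L) (n / l) hu2 hu1
      have h6 : |n / L - n / l| ≤ 2 * K * δ := by
        have e : n / L - n / l = n / L * -(L / l - 1) := by
          field_simp
          ring
        rw [e, abs_mul, abs_neg, abs_of_nonneg (div_nonneg hlN hL.le)]
        exact mul_le_mul hu2 h4 (abs_nonneg _) (by positivity)
      have h7 : C' * (2 * K * δ) ≤ ε / 2 := by
        rw [le_div_iff₀ (by positivity)] at hδ2
        nlinarith
      have h8 : C' * |n / L - n / l| ≤ C' * (2 * K * δ) := mul_le_mul_of_nonneg_left h6 hC'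
      calc |Gd (pr z) N - j (n / l)| = |(Gd (pr z) N - j (n / L)) + (j (n / L) - j (n / l))| := by
            congr 1; ring
        _ ≤ |Gd (pr z) N - j (n / L)| + |j (n / L) - j (n / l)| := abs_add_le _ _
        _ ≤ ε := by linarith
    · -- large ratio
      have hu : K < Real.log N / Real.log z := by
        rw [lt_div_iff₀ hl]; exact hcase
      have hu0 : 0 < Real.log N / Real.log z := by linarith
      have h1 := j_tail J3 J5 hC G5 hj hu0
      have h2 : C / (Real.log N / Real.log z) ≤ C / K := div_le_div_of_nonneg_left hC hK0 hu.le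
      have h3 := G5 z N hz hN1
      have h4 : C * Real.log z / (1 + Real.log N) ≤ C / K := by
        rw [div_le_div_iff₀ (by linarith) hK0]
        nlinarith
      have h5 := G2.1 _ (pr_prime z) N
      have h6 := hr (Real.log N / Real.log z)
      rw [abs_le]
      constructor <;> linarith [h5.1, h5.2, h6.1, h6.2]

end Pool.Agent.H94.TM
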